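import Pool.Agent.V11293.GEO.Final

set_option autoImplicit false

namespace Pool.Agent.Results.MP_7b7a44_co.NoLengthAssignment

open SimpleGraph Pool.Agent.V11293.GEO

/-- `G` is 3-connected: it has more than three vertices and deleting any set of at most two vertices
leaves it connected. -/
def ThreeConnected {V : Type} [Fintype V] (G : SimpleGraph V) : Prop :=
  3 < Fintype.card V ∧ ∀ S : Finset V, S.card ≤ 2 → (G.induce {v | v ∉ S}).Connected

/-- There is a 3-connected finite graph such that for every length assignment `ℓ` (positive on the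
edges) some `ℓ`-geodesic cycle is not peripheral. -/
theorem result : ∃ G : SimpleGraph (Fin 14), ThreeConnected G ∧
    ∀ ℓ : Sym2 (Fin 14) → ℝ, (∀ e ∈ G.edgeSet, 0 < ℓ e) →
      ∃ (u : Fin 14) (c : G.Walk u u), IsGeodesicCycle ℓ c ∧ ¬ IsPeripheral c := by
  classical
  refine ⟨C14.G, ⟨by simp, C14.three_conn⟩, ?_⟩
  intro ℓ hℓ
  set l : Sym2 (Fin 14) → ℝ := fun e => if e ∈ C14.G.edgeSet then ℓ e else 1 with hl
  have hpos : ∀ e, 0 < l e := by
    intro e
    rw [hl]
    dsimp only
    split_ifs with h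
    · exact hℓ e h
    · exact one_pos
  have hG : C14.G.Preconnected := by
    have h := (C14.three_conn ∅ (by simp)).preconnected
    intro x y
    obtain ⟨w⟩ := h ⟨x, by simp⟩ ⟨y, by simp⟩
    exact ⟨w.map (SimpleGraph.Embedding.induce _).toHom⟩
  have hsum : ∀ {x y : Fin 14} (p : C14.G.Walk x y), (p.edges.map l).sum = (p.edges.map ℓ).sum := by
    intro x y p
    congr 1
    apply List.map_congr_left
    intro e he
    rw [hl]
    dsimp only
    rw [if_pos (Walk.edges_subset_edgeSet p he)]
  have hnot := C14.not_allPer hpos hG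
  unfold AllPer at hnot
  push Not at hnot
  obtain ⟨u, c, hc, hper⟩ := hnot
  refine ⟨u, c, ⟨hc.1, ?_⟩, hper⟩
  intro x hx y hy p hp
  obtain ⟨q, q1, q2, q3⟩ := hc.2 x hx y hy p hp
  refine ⟨q, q1, q2, ?_⟩
  rw [← hsum, ← hsum]
  exact q3

end Pool.Agent.Results.MP_7b7a44_co.NoLengthAssignment
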